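import Pool.Agent.N112.WM.Stm

/-!
# Project WM: the large spectrum of a set of small doubling
-/

set_option autoImplicit false

namespace Pool.Agent.N49.WM

open Finset Pool.Agent.N112.WM
open scoped Pointwise ComplexConjugate

universe u

section general

variable {I J P : Type*} [AddCommGroup I] [DecidableEq I] [Fintype J]

lemma parseval (e : I → J → ℂ) (hadd : ∀ a b j, e (a + b) j = e a j * e b j)
    (hneg : ∀ a j, conj (e a j) = e (-a) j) (n : ℂ)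
    (hsum : ∀ a, ∑ j, e a j = if a = 0 then n else 0) (S : Finset P) (w : P → ℂ) (t : P → I) :
    ((∑ j, ‖∑ p ∈ S, w p * e (t p) j‖ ^ 2 : ℝ) : ℂ) =
      n * ∑ p ∈ S, ∑ p' ∈ S, if t p = t p' then w p * conj (w p') else 0 := by
  push_cast
  have h1 : ∀ j, ((‖∑ p ∈ S, w p * e (t p) j‖ : ℝ) : ℂ) ^ 2 =
      ∑ p ∈ S, ∑ p' ∈ S, (w p * conj (w p')) * e (t p - t p') j := by
    intro j
    rw [← Complex.mul_conj', map_sum, Finset.sum_mul_sum]
    refine Finset.sum_congr rfl fun p _ => Finset.sum_congr rfl fun p' _ => ?_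
    rw [map_mul, hneg, sub_eq_add_neg, hadd]
    ring
  rw [Finset.sum_congr rfl (fun j _ => h1 j), Finset.sum_comm, Finset.mul_sum]
  refine Finset.sum_congr rfl fun p _ => ?_
  rw [Finset.sum_comm, Finset.mul_sum]
  refine Finset.sum_congr rfl fun p' _ => ?_
  rw [← Finset.mul_sum, hsum]
  by_cases h : t p = t p'
  · rw [if_pos h, if_pos (sub_eq_zero.2 h)]; ring
  · rw [if_neg h, if_neg (sub_ne_zero.2 h)]; ring

lemma energy_sum (S : Finset I) :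
    ∑ p ∈ S ×ˢ S, ∑ p' ∈ S ×ˢ S, (if p.1 + p.2 = p'.1 + p'.2 then (1 : ℝ) else 0) =
      ((S.addEnergy S : ℕ) : ℝ) := by
  rw [Finset.addEnergy_eq_card_filter, Finset.card_filter]
  push_cast
  exact (Finset.sum_product (S ×ˢ S) (S ×ˢ S)
    (fun x => if x.1.1 + x.1.2 = x.2.1 + x.2.2 then (1 : ℝ) else 0)).symm

lemma sq_expand (e : I → J → ℂ) (hadd : ∀ a b j, e (a + b) j = e a j * e b j) (S : Finset I)
    (c : I → ℂ) (j : J) : ‖∑ i ∈ S, c i * e i j‖ ^ 4 =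
      ‖∑ p ∈ S ×ˢ S, (c p.1 * c p.2) * e (p.1 + p.2) j‖ ^ 2 := by
  have h1 : ∑ p ∈ S ×ˢ S, (c p.1 * c p.2) * e (p.1 + p.2) j = (∑ i ∈ S, c i * e i j) ^ 2 := by
    rw [sq, Finset.sum_mul_sum, Finset.sum_product]
    refine Finset.sum_congr rfl fun a _ => Finset.sum_congr rfl fun b _ => ?_
    rw [hadd]
    ring
  rw [h1, norm_pow]
  ring

lemma fourth_le (e : I → J → ℂ) (hadd : ∀ a b j, e (a + b) j = e a j * e b j)
    (hneg : ∀ a j, conj (e a j) = e (-a) j) (n : ℝ) (hn : 0 ≤ n)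
    (hsum : ∀ a, ∑ j, e a j = if a = 0 then (n : ℂ) else 0) (S : Finset I) (c : I → ℂ)
    (hc : ∀ i, ‖c i‖ ≤ 1) :
    ∑ j, ‖∑ i ∈ S, c i * e i j‖ ^ 4 ≤ n * ((S.addEnergy S : ℕ) : ℝ) := by
  have h1 := parseval e hadd hneg n hsum (S ×ˢ S) (fun p : I × I => c p.1 * c p.2)
    (fun p => p.1 + p.2)
  have h2 : ∑ j, ‖∑ i ∈ S, c i * e i j‖ ^ 4 =
      ∑ j, ‖∑ p ∈ S ×ˢ S, (c p.1 * c p.2) * e (p.1 + p.2) j‖ ^ 2 :=
    Finset.sum_congr rfl fun j _ => sq_expand e hadd S c j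
  rw [h2, ← energy_sum]
  set A : ℝ := ∑ j, ‖∑ p ∈ S ×ˢ S, (c p.1 * c p.2) * e (p.1 + p.2) j‖ ^ 2 with hA
  have hA0 : 0 ≤ A := Finset.sum_nonneg fun j _ => sq_nonneg _
  have h3 : A = ‖(A : ℂ)‖ := by rw [Complex.norm_real, Real.norm_of_nonneg hA0]
  rw [h3, h1, norm_mul, Complex.norm_real, Real.norm_of_nonneg hn]
  apply mul_le_mul_of_nonneg_left _ hn
  refine (norm_sum_le _ _).trans (Finset.sum_le_sum fun p _ => ?_)
  refine (norm_sum_le _ _).trans (Finset.sum_le_sum fun p' _ => ?_)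
  split_ifs
  · rw [norm_mul, norm_mul, RCLike.norm_conj, norm_mul]
    have a1 := hc p.1
    have a2 := hc p.2
    have a3 := hc p'.1
    have a4 := hc p'.2
    have b1 : ‖c p.1‖ * ‖c p.2‖ ≤ 1 := mul_le_one₀ a1 (norm_nonneg _) a2
    have b2 : ‖c p'.1‖ * ‖c p'.2‖ ≤ 1 := mul_le_one₀ a3 (norm_nonneg _) a4
    exact mul_le_one₀ b1 (by positivity) b2
  · simp

lemma fourth_eq (e : I → J → ℂ) (hadd : ∀ a b j, e (a + b) j = e a j * e b j)
    (hneg : ∀ a j, conj (e a j) = e (-a) j) (n : ℝ)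
    (hsum : ∀ a, ∑ j, e a j = if a = 0 then (n : ℂ) else 0) (S : Finset I) :
    ∑ j, ‖∑ i ∈ S, e i j‖ ^ 4 = n * ((S.addEnergy S : ℕ) : ℝ) := by
  have h1 := parseval e hadd hneg n hsum (S ×ˢ S) (fun p : I × I => (1 : ℂ) * 1)
    (fun p => p.1 + p.2)
  have h2 : ∑ j, ‖∑ i ∈ S, e i j‖ ^ 4 =
      ∑ j, ‖∑ p ∈ S ×ˢ S, ((1 : ℂ) * 1) * e (p.1 + p.2) j‖ ^ 2 := by
    refine Finset.sum_congr rfl fun j _ => ?_
    rw [← sq_expand e hadd S (fun _ => 1) j]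
    simp
  rw [h2, ← energy_sum]
  have h3 : (((∑ j, ‖∑ p ∈ S ×ˢ S, ((1 : ℂ) * 1) * e (p.1 + p.2) j‖ ^ 2 : ℝ)) : ℂ) =
      ((n * ∑ p ∈ S ×ˢ S, ∑ p' ∈ S ×ˢ S, (if p.1 + p.2 = p'.1 + p'.2 then (1 : ℝ) else 0) : ℝ) : ℂ) := by
    rw [h1, Complex.ofReal_mul, Complex.ofReal_sum]
    congr 1
    refine Finset.sum_congr rfl fun p _ => ?_
    rw [Complex.ofReal_sum]
    refine Finset.sum_congr rfl fun p' _ => ?_
    split_ifs <;> simp
  exact_mod_cast h3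

lemma second_eq (e : I → J → ℂ) (hadd : ∀ a b j, e (a + b) j = e a j * e b j)
    (hneg : ∀ a j, conj (e a j) = e (-a) j) (n : ℝ)
    (hsum : ∀ a, ∑ j, e a j = if a = 0 then (n : ℂ) else 0) (S : Finset I) :
    ∑ j, ‖∑ i ∈ S, e i j‖ ^ 2 = n * (S.card : ℝ) := by
  have h1 := parseval e hadd hneg n hsum S (fun _ => (1 : ℂ)) (fun p => p)
  have h3 : (((∑ j, ‖∑ i ∈ S, e i j‖ ^ 2 : ℝ)) : ℂ) = ((n * (S.card : ℝ) : ℝ) : ℂ) := by
    have h4 : ∑ j, ‖∑ i ∈ S, e i j‖ ^ 2 = ∑ j, ‖∑ i ∈ S, (1 : ℂ) * e i j‖ ^ 2 := by simp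
    rw [h4, h1]
    push_cast
    congr 1
    have h5 : ∀ p ∈ S, ∑ p' ∈ S, (if p = p' then (1 : ℂ) * conj (1 : ℂ) else 0) = 1 := by
      intro p hp
      rw [Finset.sum_ite_eq, if_pos hp]
      simp
    rw [Finset.sum_congr rfl h5]
    simp
  exact_mod_cast h3

end general

theorem spec : StmSpec.{u} := by
  classical
  intro H _ _ _ D L hD hL
  cases nonempty_fintype H
  set n : ℝ := (Fintype.card H : ℝ) with hn
  have hn0 : 0 < n := by
    rw [hn]; exact_mod_cast Fintype.card_pos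
  have hNat : (Nat.card H : ℝ) = n := by rw [Nat.card_eq_fintype_card]
  set d : ℝ := (D.card : ℝ) with hd
  have hd0 : 0 < d := by rw [hd]; exact_mod_cast hD.card_pos
  have hDD : (1 : ℝ) ≤ ((D + D).card : ℝ) := by exact_mod_cast (hD.add hD).card_pos
  have hL0 : 0 < L := by
    by_contra hcon
    have : L * d ≤ 0 := mul_nonpos_of_nonpos_of_nonneg (not_lt.1 hcon) hd0.le
    linarith
  -- the characters as functions
  have e1add : ∀ (a b : H) (χ : AddChar H ℂ), χ (a + b) = χ a * χ b := fun a b χ => χ.map_add_eq_mul a b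
  have e1neg : ∀ (a : H) (χ : AddChar H ℂ), conj (χ a) = χ (-a) := fun a χ => (AddChar.map_neg_eq_conj χ a).symm
  have e1sum : ∀ a : H, ∑ χ : AddChar H ℂ, χ a = if a = 0 then ((n : ℝ) : ℂ) else 0 := by
    intro a
    rw [AddChar.sum_apply_eq_ite, hn]
    simp
  have e2add : ∀ (χ ψ : AddChar H ℂ) (a : H), (χ + ψ) a = χ a * ψ a := fun χ ψ a => AddChar.add_apply χ ψ a
  have e2neg : ∀ (χ : AddChar H ℂ) (a : H), conj (χ a) = (-χ) a := by
    intro χ a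
    rw [AddChar.neg_apply, AddChar.map_neg_eq_conj]
  have e2sum : ∀ χ : AddChar H ℂ, ∑ a : H, χ a = if χ = 0 then ((n : ℝ) : ℂ) else 0 := by
    intro χ
    rw [AddChar.sum_eq_ite, hn]
    simp
  have P2 : ∑ χ : AddChar H ℂ, ‖ft D χ‖ ^ 2 = n * d :=
    second_eq (fun (a : H) (χ : AddChar H ℂ) => χ a) e1add e1neg n e1sum D
  have P4 : ∑ χ : AddChar H ℂ, ‖ft D χ‖ ^ 4 = n * ((D.addEnergy D : ℕ) : ℝ) :=
    fourth_eq (fun (a : H) (χ : AddChar H ℂ) => χ a) e1add e1neg n e1sum D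
  have hE : d ^ 3 ≤ L * ((D.addEnergy D : ℕ) : ℝ) := by
    have h1 := Finset.le_card_add_mul_addEnergy D D
    have h2 : d ^ 2 * d ^ 2 ≤ ((D + D).card : ℝ) * ((D.addEnergy D : ℕ) : ℝ) := by
      rw [hd]
      exact_mod_cast h1
    have h3 : d ^ 2 * d ^ 2 ≤ (L * d) * ((D.addEnergy D : ℕ) : ℝ) :=
      h2.trans (mul_le_mul_of_nonneg_right hL (Nat.cast_nonneg _))
    have h4 : d * d ^ 3 ≤ d * (L * ((D.addEnergy D : ℕ) : ℝ)) := by linarith
    exact le_of_mul_le_mul_left h4 hd0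
  have hfd : ∀ χ : AddChar H ℂ, ‖ft D χ‖ ≤ d := by
    intro χ
    unfold ft
    refine (norm_sum_le _ _).trans (le_of_eq ?_)
    rw [Finset.sum_congr rfl (fun x _ => AddChar.norm_apply χ x)]
    simp [hd]
  set Q : Finset (AddChar H ℂ) := Finset.univ.filter fun χ => d ^ 2 ≤ 2 * L * ‖ft D χ‖ ^ 2 with hQ
  set m : ℝ := (Q.card : ℝ) with hm
  have hm0 : 0 ≤ m := Nat.cast_nonneg _
  have hQmem : ∀ χ ∈ Q, d ^ 2 ≤ 2 * L * ‖ft D χ‖ ^ 2 := fun χ hχ => (Finset.mem_filter.1 hχ).2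
  -- (ii)
  have hii : n ≤ 2 * L * d * m := by
    have h1 : ∑ χ ∈ Finset.univ.filter (fun χ : AddChar H ℂ => ¬ d ^ 2 ≤ 2 * L * ‖ft D χ‖ ^ 2), ‖ft D χ‖ ^ 4 ≤
        d ^ 2 / (2 * L) * (n * d) := by
      calc ∑ χ ∈ Finset.univ.filter (fun χ : AddChar H ℂ => ¬ d ^ 2 ≤ 2 * L * ‖ft D χ‖ ^ 2), ‖ft D χ‖ ^ 4
          ≤ ∑ χ ∈ Finset.univ.filter (fun χ : AddChar H ℂ => ¬ d ^ 2 ≤ 2 * L * ‖ft D χ‖ ^ 2),
            d ^ 2 / (2 * L) * ‖ft D χ‖ ^ 2 := by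
            apply Finset.sum_le_sum
            intro χ hχ
            have h2 := (Finset.mem_filter.1 hχ).2
            have h3 : ‖ft D χ‖ ^ 2 ≤ d ^ 2 / (2 * L) := by
              rw [le_div_iff₀ (by positivity)]
              linarith
            calc ‖ft D χ‖ ^ 4 = ‖ft D χ‖ ^ 2 * ‖ft D χ‖ ^ 2 := by ring
              _ ≤ d ^ 2 / (2 * L) * ‖ft D χ‖ ^ 2 := mul_le_mul_of_nonneg_right h3 (sq_nonneg _)
        _ ≤ ∑ χ : AddChar H ℂ, d ^ 2 / (2 * L) * ‖ft D χ‖ ^ 2 := by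
            apply Finset.sum_le_sum_of_subset_of_nonneg (Finset.filter_subset _ _)
            intro χ _ _
            positivity
        _ = d ^ 2 / (2 * L) * (n * d) := by rw [← Finset.mul_sum, P2]
    have h2 : ∑ χ ∈ Q, ‖ft D χ‖ ^ 4 ≤ m * d ^ 4 := by
      calc ∑ χ ∈ Q, ‖ft D χ‖ ^ 4 ≤ ∑ χ ∈ Q, d ^ 4 :=
            Finset.sum_le_sum fun χ _ => pow_le_pow_left₀ (norm_nonneg _) (hfd χ) 4
        _ = m * d ^ 4 := by rw [Finset.sum_const, nsmul_eq_mul]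
    have h3 := Finset.sum_filter_add_sum_filter_not (Finset.univ : Finset (AddChar H ℂ))
      (fun χ => d ^ 2 ≤ 2 * L * ‖ft D χ‖ ^ 2) (fun χ => ‖ft D χ‖ ^ 4)
    rw [P4] at h3
    have h4 : n * ((D.addEnergy D : ℕ) : ℝ) ≤ m * d ^ 4 + d ^ 2 / (2 * L) * (n * d) := by
      rw [← h3]
      exact add_le_add h2 h1
    have h5 : n * d ^ 3 ≤ L * (m * d ^ 4 + d ^ 2 / (2 * L) * (n * d)) := by
      calc n * d ^ 3 ≤ n * (L * ((D.addEnergy D : ℕ) : ℝ)) := mul_le_mul_of_nonneg_left hE hn0.le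
        _ = L * (n * ((D.addEnergy D : ℕ) : ℝ)) := by ring
        _ ≤ _ := mul_le_mul_of_nonneg_left h4 hL0.le
    have h6 : L * (m * d ^ 4 + d ^ 2 / (2 * L) * (n * d)) = L * m * d ^ 4 + n * d ^ 3 / 2 := by
      field_simp
    rw [h6] at h5
    have h7 : d ^ 3 * n ≤ d ^ 3 * (2 * L * d * m) := by linarith
    exact le_of_mul_le_mul_left h7 (by positivity)
  have hmpos : 0 < m := by
    by_contra hcon
    have : m = 0 := le_antisymm (not_lt.1 hcon) hm0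
    rw [this, mul_zero] at hii
    linarith
  have hQne : Q.Nonempty := by
    rw [← Finset.card_pos]
    rw [hm] at hmpos
    exact_mod_cast hmpos
  -- (iii)
  have hiii : m * d ≤ 2 * L * n := by
    have h1 : m * d ^ 2 ≤ 2 * L * (n * d) := by
      calc m * d ^ 2 = ∑ χ ∈ Q, d ^ 2 := by rw [Finset.sum_const, nsmul_eq_mul]
        _ ≤ ∑ χ ∈ Q, 2 * L * ‖ft D χ‖ ^ 2 := Finset.sum_le_sum hQmem
        _ ≤ ∑ χ : AddChar H ℂ, 2 * L * ‖ft D χ‖ ^ 2 := by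
            apply Finset.sum_le_sum_of_subset_of_nonneg (Finset.subset_univ _)
            intro χ _ _
            positivity
        _ = 2 * L * (n * d) := by rw [← Finset.mul_sum, P2]
    have h2 : d * (m * d) ≤ d * (2 * L * n) := by linarith
    exact le_of_mul_le_mul_left h2 hd0
  -- (iv)
  have hiv : m ^ 3 ≤ 8 * L ^ 3 * ((Q.addEnergy Q : ℕ) : ℝ) := by
    set c : AddChar H ℂ → ℂ := fun χ => conj (ft D χ) / (‖ft D χ‖ : ℂ) with hc
    have hc1 : ∀ χ, ‖c χ‖ ≤ 1 := by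
      intro χ
      rw [hc]
      simp only [norm_div, RCLike.norm_conj, Complex.norm_real, norm_norm]
      exact div_self_le_one _
    have hcf : ∀ χ, c χ * ft D χ = (‖ft D χ‖ : ℂ) := by
      intro χ
      rw [hc]
      by_cases h0 : ft D χ = 0
      · simp [h0]
      · have h1 : (‖ft D χ‖ : ℂ) ≠ 0 := by exact_mod_cast norm_ne_zero_iff.2 h0
        rw [div_mul_eq_mul_div, Complex.conj_mul', sq, mul_div_assoc, div_self h1, mul_one]
    set F : H → ℂ := fun x => ∑ χ ∈ Q, c χ * χ x with hF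
    have hF4 : ∑ x : H, ‖F x‖ ^ 4 ≤ n * ((Q.addEnergy Q : ℕ) : ℝ) :=
      fourth_le (fun (χ : AddChar H ℂ) (a : H) => χ a) e2add e2neg n hn0.le e2sum Q c hc1
    set a : ℝ := ∑ χ ∈ Q, ‖ft D χ‖ with ha
    have ha0 : 0 ≤ a := Finset.sum_nonneg fun χ _ => norm_nonneg _
    have haF : a ≤ ∑ x ∈ D, ‖F x‖ := by
      have h1 : (a : ℂ) = ∑ x ∈ D, F x := by
        rw [ha, hF, Finset.sum_comm]
        push_cast
        apply Finset.sum_congr rfl
        intro χ _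
        rw [← hcf χ]
        unfold ft
        rw [Finset.mul_sum]
      calc a = ‖(a : ℂ)‖ := by rw [Complex.norm_real, Real.norm_of_nonneg ha0]
        _ = ‖∑ x ∈ D, F x‖ := by rw [h1]
        _ ≤ ∑ x ∈ D, ‖F x‖ := norm_sum_le _ _
    have h4 : a ^ 4 ≤ d ^ 3 * (n * ((Q.addEnergy Q : ℕ) : ℝ)) := by
      have h5 : a ^ 2 ≤ d * ∑ x ∈ D, ‖F x‖ ^ 2 :=
        (pow_le_pow_left₀ ha0 haF 2).trans (sq_sum_le_card_mul_sum_sq (s := D) (f := fun x => ‖F x‖))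
      have h6 : (∑ x ∈ D, ‖F x‖ ^ 2) ^ 2 ≤ d * ∑ x ∈ D, (‖F x‖ ^ 2) ^ 2 :=
        sq_sum_le_card_mul_sum_sq (s := D) (f := fun x => ‖F x‖ ^ 2)
      have h7 : ∑ x ∈ D, (‖F x‖ ^ 2) ^ 2 ≤ n * ((Q.addEnergy Q : ℕ) : ℝ) := by
        refine le_trans ?_ hF4
        calc ∑ x ∈ D, (‖F x‖ ^ 2) ^ 2 = ∑ x ∈ D, ‖F x‖ ^ 4 :=
              Finset.sum_congr rfl fun x _ => by ring
          _ ≤ ∑ x : H, ‖F x‖ ^ 4 := by
              apply Finset.sum_le_sum_of_subset_of_nonneg (Finset.subset_univ _)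
              intro x _ _
              positivity
      calc a ^ 4 = (a ^ 2) ^ 2 := by ring
        _ ≤ (d * ∑ x ∈ D, ‖F x‖ ^ 2) ^ 2 := pow_le_pow_left₀ (sq_nonneg _) h5 2
        _ = d ^ 2 * (∑ x ∈ D, ‖F x‖ ^ 2) ^ 2 := by ring
        _ ≤ d ^ 2 * (d * ∑ x ∈ D, (‖F x‖ ^ 2) ^ 2) := mul_le_mul_of_nonneg_left h6 (by positivity)
        _ ≤ d ^ 2 * (d * (n * ((Q.addEnergy Q : ℕ) : ℝ))) := by
            apply mul_le_mul_of_nonneg_left _ (by positivity)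
            exact mul_le_mul_of_nonneg_left h7 hd0.le
        _ = _ := by ring
    -- lower bound
    set r : ℝ := Real.sqrt (d ^ 2 / (2 * L)) with hr
    have hr0 : 0 ≤ r := Real.sqrt_nonneg _
    have hr2 : r ^ 2 = d ^ 2 / (2 * L) := Real.sq_sqrt (by positivity)
    have hra : m * r ≤ a := by
      calc m * r = ∑ χ ∈ Q, r := by rw [Finset.sum_const, nsmul_eq_mul]
        _ ≤ a := by
            apply Finset.sum_le_sum
            intro χ hχ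
            apply Real.sqrt_le_iff.2
            refine ⟨norm_nonneg _, ?_⟩
            rw [div_le_iff₀ (by positivity)]
            have := hQmem χ hχ
            linarith
    have h8 : (m * r) ^ 4 ≤ d ^ 3 * (n * ((Q.addEnergy Q : ℕ) : ℝ)) :=
      (pow_le_pow_left₀ (by positivity) hra 4).trans h4
    have h9 : (m * r) ^ 4 = m ^ 4 * d ^ 4 / (4 * L ^ 2) := by
      have : (m * r) ^ 4 = m ^ 4 * (r ^ 2) ^ 2 := by ring
      rw [this, hr2]
      field_simp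
      ring
    rw [h9, div_le_iff₀ (by positivity)] at h8
    have hEQ : 0 ≤ ((Q.addEnergy Q : ℕ) : ℝ) := Nat.cast_nonneg _
    have h10 : d ^ 3 * (n * ((Q.addEnergy Q : ℕ) : ℝ)) * (4 * L ^ 2) ≤
        d ^ 3 * ((2 * L * d * m) * ((Q.addEnergy Q : ℕ) : ℝ)) * (4 * L ^ 2) := by
      apply mul_le_mul_of_nonneg_right _ (by positivity)
      apply mul_le_mul_of_nonneg_left _ (by positivity)
      exact mul_le_mul_of_nonneg_right hii hEQ
    have h11 : (m * d ^ 4) * m ^ 3 ≤ (m * d ^ 4) * (8 * L ^ 3 * ((Q.addEnergy Q : ℕ) : ℝ)) := by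
      calc (m * d ^ 4) * m ^ 3 = m ^ 4 * d ^ 4 := by ring
        _ ≤ _ := h8
        _ ≤ _ := h10
        _ = _ := by ring
    exact le_of_mul_le_mul_left h11 (by positivity)
  refine ⟨Q, hQne, hQmem, ?_, ?_, hiv⟩
  · rw [hNat]; exact hii
  · rw [hNat]; exact hiii

end Pool.Agent.N49.WM
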